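import Pool.Agent.helper37.P2.SpecD

set_option autoImplicit false

open scoped ContDiff Topology
open MeasureTheory Filter Set Metric MvPolynomial Pool.Agent.helper37.QA

namespace Pool.Agent.P2

theorem ATO_anti {d : ℕ} {f : Endo 2 d} {Us : ℕ → Set (PP 2)} {K : Set (PP 2)} (hC : Core f Us K) (n : ℕ) :
    Us n ⊆ Us 0 := by
  induction n with
  | zero => exact subset_rfl
  | succ n ih => exact (subset_closure.trans (hC.anti n)).trans ih

theorem ATO_fix {X : ℂ → ℂ} (hX : DifferentiableOn ℂ X (ball 0 (1 / 2)))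
    (hm : ∀ ζ ∈ ball (0 : ℂ) (1 / 2), X ζ ∈ ball (0 : ℂ) (1 / 8)) :
    ∃ ζ ∈ closedBall (0 : ℂ) (1 / 8), X ζ = ζ := by
  have hsub : closedBall (0 : ℂ) (1 / 8) ⊆ ball 0 (1 / 2) := closedBall_subset_ball (by norm_num)
  have hder : ∀ ζ ∈ closedBall (0 : ℂ) (1 / 8), ‖deriv X ζ‖ ≤ 1 / 2 := by
    intro ζ hζ
    have hb : closedBall ζ (1 / 4) ⊆ ball (0 : ℂ) (1 / 2) := by
      intro w hw
      rw [mem_closedBall] at hw hζ
      rw [mem_ball]
      calc dist w 0 ≤ dist w ζ + dist ζ 0 := dist_triangle _ _ _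
        _ ≤ 1 / 4 + 1 / 8 := by linarith
        _ < 1 / 2 := by norm_num
    have hd : DiffContOnCl ℂ X (ball ζ (1 / 4)) := by
      apply DifferentiableOn.diffContOnCl
      rw [closure_ball _ (by norm_num : (1 / 4 : ℝ) ≠ 0)]
      exact hX.mono hb
    have h1 := Complex.norm_deriv_le_of_forall_mem_sphere_norm_le (C := 1 / 8) (by norm_num : (0 : ℝ) < 1 / 4) hd
      (fun w hw => by
        have := hm w (hb (sphere_subset_closedBall hw))
        rw [mem_ball, dist_zero_right] at this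
        exact this.le)
    calc ‖deriv X ζ‖ ≤ 1 / 8 / (1 / 4) := h1
      _ = 1 / 2 := by norm_num
  have hmaps : MapsTo X (closedBall (0 : ℂ) (1 / 8)) (closedBall (0 : ℂ) (1 / 8)) := fun ζ hζ =>
    ball_subset_closedBall (hm ζ (hsub hζ))
  have hlip : LipschitzOnWith (1 / 2) X (closedBall (0 : ℂ) (1 / 8)) := by
    apply LipschitzOnWith.of_dist_le_mul
    intro x hx y hy
    have h := (convex_closedBall (0 : ℂ) (1 / 8)).norm_image_sub_le_of_norm_deriv_le (f := X) (C := 1 / 2)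
      (fun z hz => (hX.differentiableAt (isOpen_ball.mem_nhds (hsub hz)))) hder hy hx
    rw [dist_eq_norm, dist_eq_norm]
    simpa using h
  have hcon : ContractingWith (1 / 2) (hmaps.restrict X (closedBall (0 : ℂ) (1 / 8)) (closedBall (0 : ℂ) (1 / 8))) := by
    refine ⟨?_, ?_⟩
    · rw [← NNReal.coe_lt_coe]
      norm_num
    · intro x y
      exact hlip x.2 y.2
  obtain ⟨ζ, hζ, hfix, -⟩ := ContractingWith.exists_fixedPoint' (isClosed_closedBall.isComplete) hmaps hcon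
    (x := 0) (by simp) (edist_ne_top _ _)
  exact ⟨ζ, hζ, hfix⟩

theorem ATO (hAT4 : AT4_stmt) (hFIN : FIN_stmt) : ATO_stmt := by
  intro d f Us K hd hC Kb κ α hKb hκ hκ1 hα H
  obtain ⟨T, L0, hT⟩ := hAT4 d f (Us 0) hd hC.good Kb κ α hKb hκ hκ1 hα
  refine (hFIN d f Us K hd hC).2 ⟨T, fun J1 => ?_⟩
  obtain ⟨J, hJ, L, N, Z, hJL, hLN, hZ, hJm, hun, hnon⟩ := H ((1 / 2 : ℝ) ^ (J1 + 2)) (max J1 (max L0 1)) (by positivity)
  have hJ1 : J1 ≤ J := le_trans (le_max_left _ _) hJ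
  have hJ2 : L0 ≤ J := le_trans (le_trans (le_max_left _ _) (le_max_right _ _)) hJ
  have hJ3 : 1 ≤ J := le_trans (le_trans (le_max_right _ _) (le_max_right _ _)) hJ
  have hm1 : 1 ≤ mass f N Z := by
    have : (1 : ℝ) ≤ J := by exact_mod_cast hJ3
    exact this.trans hJm
  obtain ⟨ι, c, γ, γ', X, n, hc, hn0, hnT, hX, hpt, hclose⟩ := hT (Us J) L N Z ((1 / 2 : ℝ) ^ (J1 + 2)) (hC.trap J) (ATO_anti hC J)
    (hJ2.trans hJL) hLN hZ hm1 hun hnon
  obtain ⟨ζ, hζ, hfix⟩ := ATO_fix hX (fun ζ hζ => (hpt ζ hζ).1)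
  have hζb : ζ ∈ ball (0 : ℂ) (1 / 2) := closedBall_subset_ball (by norm_num) hζ
  obtain ⟨-, h1, h2, a, ha, h3⟩ := hpt ζ hζb
  rw [hfix] at h1 h3
  refine ⟨J, hJ1, ι, c + κ * ζ, γ ζ + 0, γ' ζ + 0, a, n, hn0, hnT, ?_, h1, h2, ha, h3, ?_⟩
  · have h4 : ‖ζ‖ ≤ 1 / 8 := by simpa using hζ
    calc ‖c + κ * ζ‖ ≤ ‖c‖ + ‖(κ : ℂ) * ζ‖ := norm_add_le _ _
      _ = ‖c‖ + κ * ‖ζ‖ := by rw [norm_mul, Complex.norm_real, Real.norm_of_nonneg hκ.le]
      _ ≤ 2 + 1 / 10 * (1 / 8) := by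
        have := mul_le_mul hκ1 h4 (norm_nonneg _) (by norm_num)
        linarith
      _ ≤ 3 := by norm_num
  · have h5 := hclose ζ (ball_subset_closedBall hζb)
    rw [add_zero, add_zero]
    refine h5.trans ?_
    rw [pow_add]
    have : (0 : ℝ) < (1 / 2 : ℝ) ^ J1 := by positivity
    nlinarith

end Pool.Agent.P2
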