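import Pool.Agent.helper56.P2.SpecU

/-!
# MP_063734_an, P² theorem, row UBAV: the average over the shear of the exit energy
-/

set_option autoImplicit false
set_option linter.unusedVariables false

namespace Pool.Agent.P2U

open MeasureTheory Set Filter Topology Metric Complex
open scoped ENNReal ContDiff

noncomputable section

theorem UBAV_integrable (η σ : ℝ) (h0 : 0 < η) (h1 : η < 1) :
    IntegrableOn (fun z : ℂ => ‖z‖ ^ (-η)) (ball 0 σ) volume := by
  have hfin : Module.finrank ℝ ℂ = 2 := Complex.finrank_real_complex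
  refine MeasureTheory.integrableOn_ball_of_norm_le_rpow (C := 1) (α := η) ?_ ?_ ?_ ?_
  · rw [hfin]; norm_num
  · rw [hfin]; push_cast; linarith
  · refine Filter.Eventually.of_forall ?_
    intro z
    rw [one_mul, Real.norm_eq_abs, abs_of_nonneg (Real.rpow_nonneg (norm_nonneg _) _)]
  · exact (measurable_norm.pow_const _).aestronglyMeasurable

theorem UBAV_scale (η σ : ℝ) (h0 : 0 < η) (h1 : η < 1) (hσ : 0 < σ) :
    ∫ z in ball (0 : ℂ) σ, ‖z‖ ^ (-η) = σ ^ (2 - η) * ∫ z in ball (0 : ℂ) 1, ‖z‖ ^ (-η) := by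
  have h := MeasureTheory.Measure.setIntegral_comp_smul_of_pos (volume : Measure ℂ)
    (fun z : ℂ => ‖z‖ ^ (-η)) (ball (0 : ℂ) 1) hσ
  rw [_root_.smul_ball hσ.ne', smul_zero, Real.norm_eq_abs, abs_of_pos hσ, mul_one,
    Complex.finrank_real_complex, smul_eq_mul] at h
  have h2 : ∀ z : ℂ, ‖σ • z‖ ^ (-η) = σ ^ (-η) * ‖z‖ ^ (-η) := by
    intro z
    rw [norm_smul, Real.norm_eq_abs, abs_of_pos hσ, Real.mul_rpow hσ.le (norm_nonneg _)]
  simp only [h2] at h
  rw [integral_const_mul] at h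
  have h3 : ∫ z in ball (0 : ℂ) σ, ‖z‖ ^ (-η)
      = σ ^ 2 * (σ ^ (-η) * ∫ z in ball (0 : ℂ) 1, ‖z‖ ^ (-η)) := by
    rw [h]
    field_simp
  rw [h3, ← mul_assoc]
  congr 1
  rw [← Real.rpow_natCast, ← Real.rpow_add hσ]
  norm_num
  rfl

theorem UBAV_sing (η : ℝ) (h0 : 0 < η) (h1 : η < 1) : ∃ C : ℝ, 0 < C ∧ ∀ σ : ℝ, 0 < σ →
    ∀ β : ℂ, ∫⁻ b in ball (0 : ℂ) σ, ENNReal.ofReal (‖b - β‖ ^ (-η))
      ≤ ENNReal.ofReal (C * σ ^ (2 - η)) := by
  set K : ℝ := ∫ z in ball (0 : ℂ) 1, ‖z‖ ^ (-η) with hK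
  have hK0 : 0 ≤ K := integral_nonneg (fun z => Real.rpow_nonneg (norm_nonneg _) _)
  refine ⟨K + Real.pi, by positivity, ?_⟩
  intro σ hσ β
  set g : ℂ → ℝ≥0∞ := indicator (ball (0 : ℂ) σ) (fun z => ENNReal.ofReal (‖z‖ ^ (-η))) with hg
  have hpt : ∀ b : ℂ, ENNReal.ofReal (‖b - β‖ ^ (-η)) ≤ g (b - β) + ENNReal.ofReal (σ ^ (-η)) := by
    intro b
    by_cases hb : b - β ∈ ball (0 : ℂ) σ
    · have : g (b - β) = ENNReal.ofReal (‖b - β‖ ^ (-η)) := by
        rw [hg, indicator_of_mem hb]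
      rw [this]
      exact le_self_add
    · have hb2 : σ ≤ ‖b - β‖ := by
        rw [mem_ball_zero_iff, not_lt] at hb
        exact hb
      have h2 : ‖b - β‖ ^ (-η) ≤ σ ^ (-η) :=
        Real.rpow_le_rpow_of_nonpos hσ hb2 (by linarith)
      exact le_trans (ENNReal.ofReal_le_ofReal h2) le_add_self
  have hgm : Measurable g := by
    rw [hg]
    exact ((measurable_norm.pow_const _).ennreal_ofReal).indicator measurableSet_ball
  calc ∫⁻ b in ball (0 : ℂ) σ, ENNReal.ofReal (‖b - β‖ ^ (-η))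
      ≤ ∫⁻ b in ball (0 : ℂ) σ, (g (b - β) + ENNReal.ofReal (σ ^ (-η))) := lintegral_mono hpt
    _ = (∫⁻ b in ball (0 : ℂ) σ, g (b - β)) + ∫⁻ b in ball (0 : ℂ) σ, ENNReal.ofReal (σ ^ (-η)) :=
        lintegral_add_right _ measurable_const
    _ ≤ (∫⁻ b, g (b - β)) + ENNReal.ofReal (σ ^ (-η)) * volume (ball (0 : ℂ) σ) := by
        refine add_le_add (setLIntegral_le_lintegral _ _) ?_
        rw [setLIntegral_const]
    _ = ENNReal.ofReal (σ ^ (2 - η) * K) + ENNReal.ofReal (σ ^ (-η)) * volume (ball (0 : ℂ) σ) := by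
        congr 1
        rw [lintegral_sub_right_eq_self g β, hg, lintegral_indicator measurableSet_ball,
          ← UBAV_scale η σ h0 h1 hσ]
        rw [ofReal_integral_eq_lintegral_ofReal (UBAV_integrable η σ h0 h1)]
        exact Filter.Eventually.of_forall (fun z => Real.rpow_nonneg (norm_nonneg _) _)
    _ = ENNReal.ofReal ((K + Real.pi) * σ ^ (2 - η)) := by
        rw [Complex.volume_ball]
        have hpi : (NNReal.pi : ℝ≥0∞) = ENNReal.ofReal Real.pi := by
          rw [← NNReal.coe_real_pi, ENNReal.ofReal_coe_nnreal]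
        rw [hpi, ← ENNReal.ofReal_pow hσ.le, ← ENNReal.ofReal_mul (by positivity),
          ← ENNReal.ofReal_mul (by positivity), ← ENNReal.ofReal_add (by positivity) (by positivity)]
        congr 1
        have : σ ^ (2 - η) = σ ^ (-η) * σ ^ 2 := by
          rw [← Real.rpow_natCast σ 2, ← Real.rpow_add hσ]
          congr 1
          push_cast
          ring
        rw [this]
        ring

theorem UBAV_mp (b : ℂ) : MeasurePreserving (fun q : ℂ × ℂ => (q.1, q.2 + b * q.1))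
    ((volume : Measure ℂ).prod (volume : Measure ℂ))
    ((volume : Measure ℂ).prod (volume : Measure ℂ)) := by
  refine MeasurePreserving.skew_product (MeasurePreserving.id (volume : Measure ℂ))
    (g := fun x w : ℂ => w + b * x) ?_ ?_
  · exact measurable_snd.add (measurable_const.mul measurable_fst)
  · exact Filter.Eventually.of_forall (fun x => map_add_right_eq_self _ _)

theorem UBAV_meas (G : ℂ → ℂ × ℂ → ℝ≥0∞) (hG : Measurable (fun z : ℂ × (ℂ × ℂ) => G z.1 z.2))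
    (μ : Measure (ℂ × ℂ)) [SFinite μ] :
    Measurable (fun b : ℂ => ∫⁻ q, G b (q.1, q.2 + b * q.1) ∂μ) := by
  have e2 : Measurable (fun z : ℂ × (ℂ × ℂ) =>
      ((z.1, (z.2.1, z.2.2 + z.1 * z.2.1)) : ℂ × (ℂ × ℂ))) :=
    measurable_fst.prodMk ((measurable_fst.comp measurable_snd).prodMk
      ((measurable_snd.comp measurable_snd).add
        (measurable_fst.mul (measurable_fst.comp measurable_snd))))
  have e3 := hG.comp e2
  have e4 : Measurable (fun z : ℂ × (ℂ × ℂ) => G z.1 (z.2.1, z.2.2 + z.1 * z.2.1)) := e3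
  exact e4.lintegral_prod_right'

theorem UBAV_meas2 (G : ℂ → ℂ × ℂ → ℝ≥0∞) (hG : Measurable (fun z : ℂ × (ℂ × ℂ) => G z.1 z.2))
    (b : ℂ) : Measurable (G b) := by
  have h : Measurable (Function.uncurry G) := hG
  exact h.of_uncurry_left

/-- the energy density, with measurable ingredients -/
def UBAV_G (η : ℝ) (A B : ℂ × ℂ → ℂ) (O : ℂ × ℂ → ℝ) (b : ℂ) (p : ℂ × ℂ) : ℝ≥0∞ :=
  ENNReal.ofReal ((‖B p‖ / ‖A p + b * B p‖) ^ (2 + η) * ‖A p + b * B p‖ ^ 2 * O p)

theorem UBAV_G_le (η : ℝ) (h0 : 0 < η) (A B : ℂ × ℂ → ℂ) (O : ℂ × ℂ → ℝ) (b : ℂ) (p : ℂ × ℂ)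
    (hO : 0 ≤ O p) :
    UBAV_G η A B O b p ≤
      ENNReal.ofReal (‖B p‖ ^ 2 * O p) * ENNReal.ofReal (‖b - (-(A p) / B p)‖ ^ (-η)) := by
  unfold UBAV_G
  by_cases hB : B p = 0
  · have hz : (0 : ℝ) ^ (2 + η) = 0 := Real.zero_rpow (by linarith)
    rw [hB, norm_zero, zero_div, hz, zero_mul, zero_mul, ENNReal.ofReal_zero]
    exact zero_le
  · have hBn : 0 < ‖B p‖ := norm_pos_iff.mpr hB
    have hfac : A p + b * B p = B p * (b - (-(A p) / B p)) := by
      field_simp
      ring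
    have hn : ‖A p + b * B p‖ = ‖B p‖ * ‖b - (-(A p) / B p)‖ := by
      rw [hfac, norm_mul]
    set d : ℝ := ‖b - (-(A p) / B p)‖ with hd
    have hd0 : 0 ≤ d := norm_nonneg _
    rw [hn]
    rcases eq_or_lt_of_le hd0 with h | h
    · rw [← h]
      simp
    · rw [← ENNReal.ofReal_mul (by positivity)]
      apply le_of_eq
      congr 1
      have e1 : ‖B p‖ / (‖B p‖ * d) = d⁻¹ := by
        field_simp
      have e2 : (d⁻¹) ^ (2 + η) = d ^ (-η) * (d ^ 2)⁻¹ := by
        rw [Real.inv_rpow hd0, ← Real.rpow_neg hd0, ← Real.rpow_natCast d 2, ← Real.rpow_neg hd0,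
          ← Real.rpow_add h]
        congr 1
        push_cast
        ring
      rw [e1, e2]
      have hd2 : d ^ 2 ≠ 0 := by positivity
      field_simp

theorem UBAV (hSHR : USHR_stmt) : UBAV_stmt := by
  intro η h0 h1
  obtain ⟨C, hC, hsing⟩ := UBAV_sing η h0 h1
  refine ⟨C, hC, ?_⟩
  intro P Q τ hH r σ hr hσ hτ
  have hopen : IsOpen (TB 4 τ) := by
    have e1 : IsOpen {p : ℂ × ℂ | ‖p.1‖ < 4} :=
      isOpen_lt (by fun_prop) continuous_const
    have e2 : IsOpen {p : ℂ × ℂ | ‖p.2‖ < τ} :=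
      isOpen_lt (by fun_prop) continuous_const
    exact e1.inter e2
  have hPc : ContinuousOn P (TB 4 τ) := hH.hP.continuousOn
  have hQc : ContinuousOn Q (TB 4 τ) := hH.hQ.continuousOn
  have hPd : ContinuousOn (fderiv ℂ P) (TB 4 τ) := hH.hP.fderiv.continuousOn
  have hQd : ContinuousOn (fderiv ℂ Q) (TB 4 τ) := hH.hQ.fderiv.continuousOn
  have hcx : ContinuousOn (cx P Q) (TB 4 τ) := by
    have e1 : ContinuousOn (fun p => fderiv ℂ P p (1, 0)) (TB 4 τ) :=
      hPd.clm_apply continuousOn_const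
    have e2 : ContinuousOn (fun p => fderiv ℂ Q p (1, 0)) (TB 4 τ) :=
      hQd.clm_apply continuousOn_const
    exact (hQc.mul e1).sub (hPc.mul e2)
  have hcv : ContinuousOn (cv P Q) (TB 4 τ) := by
    have e1 : ContinuousOn (fun p => fderiv ℂ P p (0, 1)) (TB 4 τ) :=
      hPd.clm_apply continuousOn_const
    have e2 : ContinuousOn (fun p => fderiv ℂ Q p (0, 1)) (TB 4 τ) :=
      hQd.clm_apply continuousOn_const
    exact (hQc.mul e1).sub (hPc.mul e2)
  have hom : ContinuousOn (om P Q) (TB 4 τ) := by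
    unfold om
    refine ContinuousOn.inv₀ (((hPc.norm.pow 2).add (hQc.norm.pow 2)).pow 2) ?_
    intro p hp
    rcases hH.ne p hp with h | h
    · have : 0 < ‖P p‖ := norm_pos_iff.mpr h
      positivity
    · have : 0 < ‖Q p‖ := norm_pos_iff.mpr h
      positivity
  have hom0 : ∀ p, 0 ≤ om P Q p := by
    intro p
    unfold om
    positivity
  set A : ℂ × ℂ → ℂ := indicator (TB 4 τ) (cx P Q) with hA
  set B : ℂ × ℂ → ℂ := indicator (TB 4 τ) (cv P Q) with hB
  set O : ℂ × ℂ → ℝ := indicator (TB 4 τ) (om P Q) with hO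
  classical
  have hAm : Measurable A := by
    rw [hA, ← Set.piecewise_eq_indicator]
    exact hcx.measurable_piecewise continuousOn_const hopen.measurableSet
  have hBm : Measurable B := by
    rw [hB, ← Set.piecewise_eq_indicator]
    exact hcv.measurable_piecewise continuousOn_const hopen.measurableSet
  have hOm : Measurable O := by
    rw [hO, ← Set.piecewise_eq_indicator]
    exact hom.measurable_piecewise continuousOn_const hopen.measurableSet
  have hAv : ∀ p ∈ TB 4 τ, A p = cx P Q p := fun p hp => by rw [hA, indicator_of_mem hp]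
  have hBv : ∀ p ∈ TB 4 τ, B p = cv P Q p := fun p hp => by rw [hB, indicator_of_mem hp]
  have hOv : ∀ p ∈ TB 4 τ, O p = om P Q p := fun p hp => by rw [hO, indicator_of_mem hp]
  have hGm : Measurable (fun z : ℂ × (ℂ × ℂ) => UBAV_G η A B O z.1 z.2) := by
    unfold UBAV_G
    have a1 : Measurable (fun z : ℂ × (ℂ × ℂ) => A z.2) := hAm.comp measurable_snd
    have a2 : Measurable (fun z : ℂ × (ℂ × ℂ) => B z.2) := hBm.comp measurable_snd
    have a3 : Measurable (fun z : ℂ × (ℂ × ℂ) => O z.2) := hOm.comp measurable_snd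
    have a4 : Measurable (fun z : ℂ × (ℂ × ℂ) => A z.2 + z.1 * B z.2) :=
      a1.add (measurable_fst.mul a2)
    exact ((((a2.norm.div a4.norm).pow_const _).mul (a4.norm.pow_const 2)).mul a3).ennreal_ofReal
  -- the key identity
  have hkey : ∀ b ∈ ball (0 : ℂ) σ, ∀ q ∈ TB 1 r,
      ENNReal.ofReal ((‖cv (sh b P) (sh b Q) q‖ / ‖cx (sh b P) (sh b Q) q‖) ^ (2 + η) *
        ‖cx (sh b P) (sh b Q) q‖ ^ 2 * om (sh b P) (sh b Q) q) =
      UBAV_G η A B O b (q.1, q.2 + b * q.1) := by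
    intro b hb q hq
    rw [mem_ball_zero_iff] at hb
    have hq2 : q ∈ TB 2 r := ⟨by have := hq.1; linarith, hq.2⟩
    obtain ⟨-, h2⟩ := hSHR P Q τ hH b r (by linarith)
    obtain ⟨c1, c2, c3, c4, -⟩ := h2 q hq2
    unfold UBAV_G
    rw [hAv _ c1, hBv _ c1, hOv _ c1, c2, c3, c4]
  have hTB1 : MeasurableSet (TB 1 r) := by
    have e1 : IsOpen {p : ℂ × ℂ | ‖p.1‖ < 1} :=
      isOpen_lt (by fun_prop) continuous_const
    have e2 : IsOpen {p : ℂ × ℂ | ‖p.2‖ < r} :=
      isOpen_lt (by fun_prop) continuous_const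
    exact (e1.inter e2).measurableSet
  have hTB2 : MeasurableSet (TB 1 (r + σ)) := by
    have e1 : IsOpen {p : ℂ × ℂ | ‖p.1‖ < 1} :=
      isOpen_lt (by fun_prop) continuous_const
    have e2 : IsOpen {p : ℂ × ℂ | ‖p.2‖ < r + σ} :=
      isOpen_lt (by fun_prop) continuous_const
    exact (e1.inter e2).measurableSet
  have hIeq : ∀ b ∈ ball (0 : ℂ) σ,
      ∫⁻ q in TB 1 r, ENNReal.ofReal ((‖cv (sh b P) (sh b Q) q‖ / ‖cx (sh b P) (sh b Q) q‖) ^ (2 + η) *
        ‖cx (sh b P) (sh b Q) q‖ ^ 2 * om (sh b P) (sh b Q) q) =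
      ∫⁻ q in TB 1 r, UBAV_G η A B O b (q.1, q.2 + b * q.1) := by
    intro b hb
    exact setLIntegral_congr_fun hTB1 (fun q hq => hkey b hb q hq)
  have hIm : Measurable (fun b : ℂ => ∫⁻ q in TB 1 r, UBAV_G η A B O b (q.1, q.2 + b * q.1)) :=
    UBAV_meas (UBAV_G η A B O) hGm (volume.restrict (TB 1 r))
  refine ⟨?_, ?_⟩
  · refine ⟨_, hIm, ?_⟩
    exact (ae_restrict_of_forall_mem measurableSet_ball hIeq)
  · rw [setLIntegral_congr_fun measurableSet_ball hIeq]
    have hstep : ∀ b ∈ ball (0 : ℂ) σ, ∫⁻ q in TB 1 r, UBAV_G η A B O b (q.1, q.2 + b * q.1) ≤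
        ∫⁻ p in TB 1 (r + σ), UBAV_G η A B O b p := by
      intro b hb
      rw [mem_ball_zero_iff] at hb
      have hmp : MeasurePreserving (fun q : ℂ × ℂ => (q.1, q.2 + b * q.1))
          (volume : Measure (ℂ × ℂ)) volume := UBAV_mp b
      rw [← lintegral_indicator hTB1, ← lintegral_indicator hTB2]
      have hGb : Measurable (UBAV_G η A B O b) := UBAV_meas2 (UBAV_G η A B O) hGm b
      rw [← hmp.lintegral_comp (hGb.indicator hTB2)]
      refine lintegral_mono ?_
      intro q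
      by_cases hq : q ∈ TB 1 r
      · rw [indicator_of_mem hq]
        have hq' : ((q.1, q.2 + b * q.1) : ℂ × ℂ) ∈ TB 1 (r + σ) := by
          refine ⟨hq.1, ?_⟩
          show ‖q.2 + b * q.1‖ < r + σ
          have n1 : ‖q.2 + b * q.1‖ ≤ ‖q.2‖ + ‖b‖ * ‖q.1‖ := by
            refine le_trans (norm_add_le _ _) ?_
            rw [norm_mul]
          have n2 : ‖b‖ * ‖q.1‖ ≤ ‖b‖ * 1 :=
            mul_le_mul_of_nonneg_left (le_of_lt hq.1) (norm_nonneg _)
          have n3 : ‖q.2‖ < r := hq.2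
          linarith
        beta_reduce
        rw [indicator_of_mem hq']
      · rw [indicator_of_notMem hq]
        exact zero_le
    calc ∫⁻ b in ball (0 : ℂ) σ, ∫⁻ q in TB 1 r, UBAV_G η A B O b (q.1, q.2 + b * q.1)
        ≤ ∫⁻ b in ball (0 : ℂ) σ, ∫⁻ p in TB 1 (r + σ), UBAV_G η A B O b p :=
          setLIntegral_mono' measurableSet_ball hstep
      _ = ∫⁻ p in TB 1 (r + σ), ∫⁻ b in ball (0 : ℂ) σ, UBAV_G η A B O b p := by
          refine lintegral_lintegral_swap ?_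
          exact hGm.aemeasurable
      _ ≤ ∫⁻ p in TB 1 (r + σ), ENNReal.ofReal (C * σ ^ (2 - η)) *
            ENNReal.ofReal (‖cv P Q p‖ ^ 2 * om P Q p) := by
          refine setLIntegral_mono' hTB2 ?_
          intro p hp
          have hp4 : p ∈ TB 4 τ := ⟨by have := hp.1; linarith, by have := hp.2; linarith⟩
          have hOp : 0 ≤ O p := by rw [hOv p hp4]; exact hom0 p
          calc ∫⁻ b in ball (0 : ℂ) σ, UBAV_G η A B O b p
              ≤ ∫⁻ b in ball (0 : ℂ) σ, ENNReal.ofReal (‖B p‖ ^ 2 * O p) *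
                  ENNReal.ofReal (‖b - (-(A p) / B p)‖ ^ (-η)) :=
                lintegral_mono (fun b => UBAV_G_le η h0 A B O b p hOp)
            _ = ENNReal.ofReal (‖B p‖ ^ 2 * O p) *
                  ∫⁻ b in ball (0 : ℂ) σ, ENNReal.ofReal (‖b - (-(A p) / B p)‖ ^ (-η)) :=
                lintegral_const_mul' _ _ ENNReal.ofReal_ne_top
            _ ≤ ENNReal.ofReal (‖B p‖ ^ 2 * O p) * ENNReal.ofReal (C * σ ^ (2 - η)) :=
                mul_le_mul_right (hsing σ hσ _) _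
            _ = ENNReal.ofReal (C * σ ^ (2 - η)) * ENNReal.ofReal (‖cv P Q p‖ ^ 2 * om P Q p) := by
                rw [hBv p hp4, hOv p hp4, mul_comm]
      _ = ENNReal.ofReal (C * σ ^ (2 - η)) *
            ∫⁻ p in TB 1 (r + σ), ENNReal.ofReal (‖cv P Q p‖ ^ 2 * om P Q p) :=
          lintegral_const_mul' _ _ ENNReal.ofReal_ne_top

end

end Pool.Agent.P2U
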